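import Pool.Agent.H13.MA.Stmts

/-!
Modules CBA and CBP of project MA: countable sets in a model of ZF.
-/

set_option linter.unusedVariables false
set_option linter.unusedSectionVars false
set_option synthInstance.maxSize 100000

namespace SW

section
variable {M : Type} [SetStr M] [ZF M]

/-- countability from a class relation -/
theorem cba_rel {x : M} {R : M → M → Prop} (hR : Cl2 R)
    (h1 : ∀ z, E z x → ∃ n, E n om ∧ R z n)
    (h2 : ∀ z z' n, E z x → E z' x → E n om → R z n → R z' n → z = z') : Cb x := by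
  have hC : Cl (fun z : M => ∃ a b : M, z = opair a b ∧ R a b) := inferInstance
  have key : ∀ a b, E (opair a b) (sep (prod x om) (fun z => ∃ a b : M, z = opair a b ∧ R a b)) ↔
      (E a x ∧ E b om) ∧ R a b := by
    intro a b
    rw [mem_sep' hC, mem_prod]
    refine and_congr_right fun _ => ?_
    constructor
    · rintro ⟨a', b', h, hr⟩
      rw [opair_inj] at h
      rw [h.1, h.2]
      exact hr
    · intro h
      exact ⟨a, b, rfl, h⟩
  refine ⟨sep (prod x om) (fun z => ∃ a b : M, z = opair a b ∧ R a b), fun y hy => ?_,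
    fun y y' n hy hy' hn h h' => ?_⟩
  · obtain ⟨n, hn, hr⟩ := h1 y hy
    exact ⟨n, hn, (key y n).2 ⟨⟨hy, hn⟩, hr⟩⟩
  · exact h2 y y' n hy hy' hn ((key y n).1 h).2 ((key y' n).1 h').2

/-- a set which is mapped injectively, by a class relation, to a countable set -/
theorem cba_mk {x y : M} {R : M → M → Prop} (hR : Cl2 R) (hy : Cb y)
    (h1 : ∀ z, E z x → ∃ n, E n y ∧ R z n)
    (h2 : ∀ z z' n, E z x → E z' x → E n y → R z n → R z' n → z = z') : Cb x := by
  obtain ⟨g, g1, g2⟩ := hy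
  refine cba_rel (R := fun z k => ∃ n : M, E n y ∧ R z n ∧ E (opair n k) g) inferInstance ?_ ?_
  · intro z hz
    obtain ⟨n, hn, hr⟩ := h1 z hz
    obtain ⟨k, hk, hg⟩ := g1 n hn
    exact ⟨k, hk, n, hn, hr, hg⟩
  · rintro z z' k hz hz' hk ⟨n, hn, hr, hg⟩ ⟨n', hn', hr', hg'⟩
    have := g2 n n' k hn hn' hk hg hg'
    subst this
    exact h2 z z' n hz hz' hn hr hr'

theorem cba_sub {x y : M} (hx : Cb x) (h : Sub y x) : Cb y := by
  obtain ⟨f, f1, f2⟩ := hx
  exact ⟨f, fun z hz => f1 z (h z hz), fun z z' n hz hz' => f2 z z' n (h z hz) (h z' hz')⟩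

theorem cba_om : Cb (om : M) :=
  cba_rel (R := fun z n => z = n) inferInstance (fun z hz => ⟨z, hz, rfl⟩)
    (fun z z' n _ _ _ h h' => by rw [h, h'])

/-- twice a number -/
noncomputable def cba_dbl (n : M) : M := orec emp (fun u => suc (suc u)) n

theorem cba_dbl_df : Fn1 (fun n : M => cba_dbl n) := by unfold cba_dbl; infer_instance

instance {n : ℕ} {t : (Fin n → M) → M} [ht : DfT t] : DfT (fun v => cba_dbl (t v)) :=
  cba_dbl_df.comp1 ht

theorem cba_dbl_zero : cba_dbl (emp : M) = emp := by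
  unfold cba_dbl
  rw [orec_zero inferInstance]

theorem cba_dbl_suc {n : M} (hn : E n om) : cba_dbl (suc n) = suc (suc (cba_dbl n)) := by
  unfold cba_dbl
  rw [orec_suc inferInstance hn]

theorem cba_dbl_om {n : M} (hn : E n om) : E (cba_dbl n) om := by
  refine om_ind (C := fun n => E (cba_dbl n) om) inferInstance ?_ ?_ n hn
  · rw [cba_dbl_zero]; exact emp_mem_om
  · intro n hn ih
    rw [cba_dbl_suc hn]
    exact suc_mem_om (suc_mem_om ih)

theorem cba_dbl_inj {n m : M} (hn : E n om) (hm : E m om) (h : cba_dbl n = cba_dbl m) :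
    n = m := by
  refine om_ind (C := fun n => ∀ m : M, E m om → cba_dbl n = cba_dbl m → n = m) inferInstance
    ?_ ?_ n hn m hm h
  · intro m hm h
    rcases om_cases hm with rfl | ⟨k, hk, rfl⟩
    · rfl
    · rw [cba_dbl_zero, cba_dbl_suc hk] at h
      exact absurd h.symm (suc_ne_emp _)
  · intro n hn ih m hm h
    rcases om_cases hm with rfl | ⟨k, hk, rfl⟩
    · rw [cba_dbl_zero, cba_dbl_suc hn] at h
      exact absurd h (suc_ne_emp _)
    · rw [cba_dbl_suc hk, cba_dbl_suc hn] at h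
      rw [ih k hk (suc_inj (suc_inj h))]

theorem cba_dbl_ne {n m : M} (hn : E n om) (hm : E m om) : cba_dbl n ≠ suc (cba_dbl m) := by
  refine om_ind (C := fun n => ∀ m : M, E m om → cba_dbl n ≠ suc (cba_dbl m)) inferInstance
    ?_ ?_ n hn m hm
  · intro m hm h
    rw [cba_dbl_zero] at h
    exact absurd h.symm (suc_ne_emp _)
  · intro n hn ih m hm h
    rw [cba_dbl_suc hn] at h
    have h1 := suc_inj h
    rcases om_cases hm with rfl | ⟨k, hk, rfl⟩
    · rw [cba_dbl_zero] at h1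
      exact absurd h1 (suc_ne_emp _)
    · rw [cba_dbl_suc hk] at h1
      exact ih k hk (suc_inj h1)

theorem cba_bun {x y : M} (hx : Cb x) (hy : Cb y) : Cb (bun x y) := by
  obtain ⟨f, f1, f2⟩ := hx
  obtain ⟨g, g1, g2⟩ := hy
  refine cba_rel (R := fun z n => (E z x ∧ ∃ k : M, E k om ∧ E (opair z k) f ∧ n = cba_dbl k) ∨
    (¬ E z x ∧ ∃ k : M, E k om ∧ E (opair z k) g ∧ n = suc (cba_dbl k))) inferInstance ?_ ?_
  · intro z hz
    by_cases hzx : E z x
    · obtain ⟨k, hk, hf⟩ := f1 z hzx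
      exact ⟨_, cba_dbl_om hk, Or.inl ⟨hzx, k, hk, hf, rfl⟩⟩
    · rw [mem_bun] at hz
      rcases hz with hz | hz
      · exact absurd hz hzx
      · obtain ⟨k, hk, hg⟩ := g1 z hz
        exact ⟨_, suc_mem_om (cba_dbl_om hk), Or.inr ⟨hzx, k, hk, hg, rfl⟩⟩
  · intro z z' n hz hz' hn h h'
    rw [mem_bun] at hz hz'
    rcases h with ⟨h1, k, hk, h2, rfl⟩ | ⟨h1, k, hk, h2, rfl⟩
    · rcases h' with ⟨h1', k', hk', h2', h3⟩ | ⟨h1', k', hk', h2', h3⟩
      · have := cba_dbl_inj hk hk' h3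
        subst this
        exact f2 z z' k h1 h1' hk h2 h2'
      · exact absurd h3 (cba_dbl_ne hk hk')
    · rcases h' with ⟨h1', k', hk', h2', h3⟩ | ⟨h1', k', hk', h2', h3⟩
      · exact absurd h3.symm (cba_dbl_ne hk' hk)
      · have := cba_dbl_inj hk hk' (suc_inj h3)
        subst this
        have hz1 := hz.resolve_left h1
        have hz1' := hz'.resolve_left h1'
        exact g2 z z' k hz1 hz1' hk h2 h2'

theorem cba_fin {x : M} (hx : Fnt x) : Cb x := by
  obtain ⟨n, hn, f, f1, f2, f3, f4⟩ := hx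
  refine cba_rel (R := fun y i => E i n ∧ E (opair i y) f) inferInstance ?_ ?_
  · intro z hz
    obtain ⟨i, hi, h⟩ := f2 z hz
    exact ⟨i, Trans_om n hn i hi, hi, h⟩
  · rintro z z' i hz hz' _ ⟨hi, h⟩ ⟨_, h'⟩
    exact f3 i z z' hi h h'

/-- CBA -/
theorem ma_cba : CBAStmt := by
  intro M _ _
  refine ⟨fun hx h => cba_sub hx h, fun hx => cba_fin hx, cba_om, ?_, ?_, fun hx hy => cba_bun hx hy⟩
  · intro x f hf hx
    refine cba_mk (y := x) (R := fun z n => z = f n) inferInstance hx ?_ ?_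
    · intro z hz
      rw [mem_img' hf] at hz
      exact hz
    · intro z z' n _ _ _ h h'
      rw [h, h']
  · intro x y f hf hy h1 h2
    refine cba_mk (y := y) (R := fun z n => n = f z) inferInstance hy ?_ ?_
    · intro z hz
      exact ⟨f z, h1 z hz, rfl⟩
    · intro z z' n hz hz' _ h h'
      exact h2 z z' hz hz' (by rw [← h, ← h'])

/-! ### pairs of numbers -/

/-- the number `2 ^ a * (2 * b + 1)` -/
noncomputable def cbp_pr (a b : M) : M := orec (suc (cba_dbl b)) (fun u => cba_dbl u) a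

theorem cbp_pr_df : Fn2 (fun a b : M => cbp_pr a b) := by unfold cbp_pr; infer_instance

instance {n : ℕ} {t s : (Fin n → M) → M} [ht : DfT t] [hs : DfT s] :
    DfT (fun v => cbp_pr (t v) (s v)) := cbp_pr_df.comp2 ht hs

theorem cbp_pr_zero (b : M) : cbp_pr emp b = suc (cba_dbl b) := by
  unfold cbp_pr
  rw [orec_zero inferInstance]

theorem cbp_pr_suc {a : M} (ha : E a om) (b : M) : cbp_pr (suc a) b = cba_dbl (cbp_pr a b) := by
  unfold cbp_pr
  rw [orec_suc inferInstance ha]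

theorem cbp_pr_om {a b : M} (ha : E a om) (hb : E b om) : E (cbp_pr a b) om := by
  refine om_ind (C := fun a => E (cbp_pr a b) om) inferInstance ?_ ?_ a ha
  · rw [cbp_pr_zero]
    exact suc_mem_om (cba_dbl_om hb)
  · intro a ha ih
    rw [cbp_pr_suc ha]
    exact cba_dbl_om ih

theorem cbp_pr_inj {a b a' b' : M} (ha : E a om) (hb : E b om) (ha' : E a' om) (hb' : E b' om)
    (h : cbp_pr a b = cbp_pr a' b') : a = a' ∧ b = b' := by
  refine om_ind (C := fun a => ∀ a' : M, E a' om → cbp_pr a b = cbp_pr a' b' → a = a' ∧ b = b')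
    inferInstance ?_ ?_ a ha a' ha' h
  · intro a' ha' h
    rcases om_cases ha' with rfl | ⟨k, hk, rfl⟩
    · rw [cbp_pr_zero, cbp_pr_zero] at h
      exact ⟨rfl, cba_dbl_inj hb hb' (suc_inj h)⟩
    · rw [cbp_pr_zero, cbp_pr_suc hk] at h
      exact absurd h.symm (cba_dbl_ne (cbp_pr_om hk hb') hb)
  · intro a ha ih a' ha' h
    rcases om_cases ha' with rfl | ⟨k, hk, rfl⟩
    · rw [cbp_pr_zero, cbp_pr_suc ha] at h
      exact absurd h (cba_dbl_ne (cbp_pr_om ha hb) hb')
    · rw [cbp_pr_suc ha, cbp_pr_suc hk] at h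
      obtain ⟨h1, h2⟩ := ih k hk (cba_dbl_inj (cbp_pr_om ha hb) (cbp_pr_om hk hb') h)
      exact ⟨by rw [h1], h2⟩

end

/-- CBP -/
theorem ma_cbp : CBPStmt := by
  intro M _ _
  refine cba_rel (R := fun z n => ∃ a b : M, E a om ∧ E b om ∧ z = opair a b ∧ n = cbp_pr a b)
    inferInstance ?_ ?_
  · intro z hz
    obtain ⟨a, b, ha, hb, rfl⟩ := mem_prod'.1 hz
    exact ⟨_, cbp_pr_om ha hb, a, b, ha, hb, rfl, rfl⟩
  · rintro z z' n _ _ _ ⟨a, b, ha, hb, rfl, rfl⟩ ⟨a', b', ha', hb', rfl, h⟩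
    obtain ⟨rfl, rfl⟩ := cbp_pr_inj ha hb ha' hb' h
    rfl

end SW
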