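import Pool.Agent.H93.MA.CBA

/-!
Module CBT of project MA: countable sets in a model of ZFC.
-/

set_option linter.unusedVariables false
set_option linter.unusedSectionVars false
set_option synthInstance.maxSize 100000

namespace SW

section
variable {M : Type} [SetStr M] [ZF M]

/-- `g` numbers the members of `y` injectively -/
def cbt_Nm (y g : M) : Prop := (∀ z, E z y → ∃ n, E n om ∧ E (opair z n) g) ∧
  ∀ z z' n, E z y → E z' y → E n om → E (opair z n) g → E (opair z' n) g → z = z'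

theorem cbt_Nm_df : Cl2 (fun y g : M => cbt_Nm y g) := by unfold cbt_Nm; infer_instance

instance {n : ℕ} {t s : (Fin n → M) → M} [ht : DfT t] [hs : DfT s] :
    Df (fun v => cbt_Nm (t v) (s v)) := cbt_Nm_df.comp2 ht hs

/-- products -/
theorem cbt_prod (hp : Cb (prod om om : M)) {x y : M} (hx : Cb x) (hy : Cb y) :
    Cb (prod x y) := by
  obtain ⟨f, f1, f2⟩ := hx
  obtain ⟨g, g1, g2⟩ := hy
  refine cba_mk (y := prod om om) (R := fun z m => ∃ a b k l : M, z = opair a b ∧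
    m = opair k l ∧ E (opair a k) f ∧ E (opair b l) g) inferInstance hp ?_ ?_
  · intro z hz
    obtain ⟨a, b, ha, hb, rfl⟩ := mem_prod'.1 hz
    obtain ⟨k, hk, hf⟩ := f1 a ha
    obtain ⟨l, hl, hg⟩ := g1 b hb
    exact ⟨opair k l, mem_prod.2 ⟨hk, hl⟩, a, b, k, l, rfl, rfl, hf, hg⟩
  · rintro z z' m hz hz' hm ⟨a, b, k, l, rfl, rfl, hf, hg⟩ ⟨a', b', k', l', rfl, h, hf', hg'⟩
    rw [opair_inj] at h
    obtain ⟨rfl, rfl⟩ := h
    rw [mem_prod] at hz hz' hm
    rw [f2 a a' k hz.1 hz'.1 hm.1 hf hf', g2 b b' l hz.2 hz'.2 hm.2 hg hg']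

/-- countable unions -/
theorem cbt_sUn (hp : Cb (prod om om : M)) {x : M} (hac : ∃ h, ChF (pow (prod (sUn x) om)) h)
    (hx : Cb x) (hy : ∀ y, E y x → Cb y) : Cb (sUn x) := by
  obtain ⟨f, f1, f2⟩ := hx
  obtain ⟨h, hh⟩ := hac
  have hN : ∀ y, E y x → cbt_Nm y (app h (sep (pow (prod (sUn x) om)) (fun g => cbt_Nm y g))) := by
    intro y hyx
    have h1 : E (app h (sep (pow (prod (sUn x) om)) (fun g => cbt_Nm y g)))
        (sep (pow (prod (sUn x) om)) (fun g => cbt_Nm y g)) := by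
      refine hh _ (fun g hg => ?_) ?_
      · rw [mem_sep] at hg
        exact hg.1
      · obtain ⟨g, g1, g2⟩ := hy y hyx
        refine ⟨inter g (prod (sUn x) om), ?_⟩
        rw [mem_sep, mem_pow]
        refine ⟨fun z hz => by rw [mem_inter] at hz; exact hz.2, ?_, ?_⟩
        · intro z hz
          obtain ⟨n, hn, h2⟩ := g1 z hz
          refine ⟨n, hn, ?_⟩
          rw [mem_inter, mem_prod, mem_sUn]
          exact ⟨h2, ⟨y, hyx, hz⟩, hn⟩
        · intro z z' n hz hz' hn h2 h3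
          rw [mem_inter] at h2 h3
          exact g2 z z' n hz hz' hn h2.1 h3.1
    rw [mem_sep] at h1
    exact h1.2
  refine cba_mk (y := prod om om) (R := fun z m => ∃ y k l : M, E y x ∧ E z y ∧ m = opair k l ∧
    E (opair y k) f ∧ E (opair z l) (app h (sep (pow (prod (sUn x) om)) (fun g => cbt_Nm y g))))
    inferInstance hp ?_ ?_
  · intro z hz
    rw [mem_sUn] at hz
    obtain ⟨y, hyx, hzy⟩ := hz
    obtain ⟨k, hk, hf⟩ := f1 y hyx
    obtain ⟨l, hl, hg⟩ := (hN y hyx).1 z hzy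
    exact ⟨opair k l, mem_prod.2 ⟨hk, hl⟩, y, k, l, hyx, hzy, rfl, hf, hg⟩
  · rintro z z' m _ _ hm ⟨y, k, l, h1, h2, rfl, h3, h4⟩ ⟨y', k', l', h1', h2', h, h3', h4'⟩
    rw [opair_inj] at h
    obtain ⟨rfl, rfl⟩ := h
    rw [mem_prod] at hm
    have := f2 y y' k h1 h1' hm.1 h3 h3'
    subst this
    exact (hN y h1).2 z z' l h2 h2' hm.2 h4 h4'

/-- the subsets with a given number of elements -/
theorem cbt_cnt (hp : Cb (prod om om : M)) {x : M} (hx : Cb x) {n : M} (hn : E n om) :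
    Cb (sep (pow x) (fun y => Cnt y n)) := by
  refine om_ind (C := fun n : M => Cb (sep (pow x) (fun y : M => Cnt y n))) inferInstance ?_ ?_ n hn
  · refine cba_sub (cba_fin (finF.ins (a := emp) finF.emp)) fun y hy => ?_
    rw [mem_sep] at hy
    obtain ⟨_, _, f, hf⟩ := hy
    rw [mem_ins, Enum_zero hf]
    exact Or.inr rfl
  · intro n hn ih
    refine cba_mk (y := prod (sep (pow x) (fun y => Cnt y n)) x)
      (R := fun y m => ∃ u b : M, m = opair u b ∧ y = ins b u) inferInstance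
      (cbt_prod hp ih hx) ?_ ?_
    · intro y hy
      rw [mem_sep, mem_pow] at hy
      obtain ⟨hyx, _, f, hf⟩ := hy
      obtain ⟨b, hb, hfb⟩ := hf.1 n (by rw [mem_suc]; exact Or.inr rfl)
      obtain ⟨f', hf'⟩ := Enum_del hf hb
      refine ⟨opair (diff y (sing b)) b, ?_, diff y (sing b), b, rfl, (ins_diff hb).symm⟩
      rw [mem_prod, mem_sep, mem_pow]
      refine ⟨⟨fun z hz => ?_, hn, f', hf'⟩, hyx b hb⟩
      rw [mem_diff] at hz
      exact hyx z hz.1
    · rintro y y' m _ _ _ ⟨u, b, rfl, rfl⟩ ⟨u', b', h, rfl⟩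
      rw [opair_inj] at h
      rw [h.1, h.2]

end

/-- CBT -/
theorem ma_cbt_of (hA : CBAStmt) (hP : CBPStmt) (hC : ACFStmt) : CBTStmt := by
  intro M _ _
  have hp : Cb (prod om om : M) := hP M
  have hu : ∀ {x : M}, Cb x → (∀ y, E y x → Cb y) → Cb (sUn x) := fun {x} hx hy =>
    cbt_sUn hp (hC M _) hx hy
  have hi : ∀ {x : M} (f : M → M), Fn1 f → Cb x → (∀ y, E y x → Cb (f y)) →
      Cb (sUn (img x f)) := by
    intro x f hf hx hy
    refine hu ((hA M).img f hf hx) fun y hy' => ?_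
    rw [mem_img' hf] at hy'
    obtain ⟨z, hz, rfl⟩ := hy'
    exact hy z hz
  refine { toCbA := hA M, prod := fun hx hy => cbt_prod hp hx hy, sUn := hu, iUn := hi, fsub := ?_ }
  intro x hx
  refine cba_sub (x := sUn (img om (fun n => sep (pow x) (fun y => Cnt y n))))
    (hi (fun n => sep (pow x) (fun y => Cnt y n)) inferInstance cba_om
      fun n hn => cbt_cnt hp hx hn) fun y hy => ?_
  rw [mem_sep] at hy
  obtain ⟨hy, n, hn⟩ := hy
  rw [mem_sUn]
  refine ⟨sep (pow x) (fun y => Cnt y n), ?_, ?_⟩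
  · rw [mem_img]
    exact ⟨n, hn.1, rfl⟩
  · rw [mem_sep]
    exact ⟨hy, hn⟩

/-- CBT -/
theorem ma_cbt (hC : ACFStmt) : CBTStmt := ma_cbt_of ma_cba ma_cbp hC

end SW
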